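import Mathlib
import Pool.Agent.H845.Orb.Main
import Pool.Agent.H845.Orb.Split
import Pool.Agent.H857.NF.Field

/-!
# The Tate conjecture over number fields and finite fields for `A ^ n × Y`, `Y` an arbitrary variety: an
exact criterion for `A` in terms of factorizations over the CM fields of one Frobenius

**The family.** Let `p` be a prime number, `q = p ^ a`, let `K i` (`i` in a finite set) be **any** CM
fields (they may be dependent, have the same Galois closure, or be equal), and `π i` Weil numbers for
`q` in `K i` such that each power `(π i) ^ n`, `n ≥ 1`, generates `K i` (`IsSimpleWeil`; by Honda and
Tate this is the situation for the simple factors of any abelian variety over a finite field, after a
finite extension of the field, except for the supersingular factors).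

**The criterion** (`IsFree`). Decompose the minimal polynomials (over `ℚ`) of all the numbers `π k`
into monic irreducible factors `g` over the field `K i`, and let `ratio g = g(0) / conj g(0)`. The
number `π i` is free if no positive power of `π i / conj (π i)` is a product of powers of the numbers
`ratio g`, where `g` runs over all these factors except for `X - π i` and `X - conj (π i)`. So one has
to look for multiplicative relations between a few elements of the group `K i ^×`; no Galois closure is
needed. **All `π i` are free if and only if there are no relations between the conjugates of the
`π i`, except for the trivial ones** (the angle rank is maximal, `MaximalAngleRank`), that is, if and
only if there are no exotic Tate classes on the powers of the abelian varieties of the `π i`.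

**The theorem** (`TateOverReduces`). Suppose that all `π i` are free. A number `ρ` is free from the `π i` (`FreeFrom`) if a relation
`ρ ^ N ∏ (φ (π i)) ^ n(φ) = q ^ c`, `N ≥ 1`, is possible only if `n(φ) = n(conj φ)` for all `φ`.
Let `k` be a number field or a finite field, and let `A` be an abelian variety over `k` with good
reduction at ONE place `v` with residue field of `q` elements (no condition if `k` is the field with
`q` elements), such that the characteristic polynomial of the Frobenius element of `v` is the product
of the minimal polynomials of the `π i`. Let `Y` be ANY smooth projective variety over `k` such that the
eigenvalues of this Frobenius element on the `ℓ`-adic cohomology of `Y` are free from the `π i`. Then for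
all `n` and `j` **the map `c_j` is surjective (the cycles span the space of the invariants of the
Galois group) for `A ^ n × Y` over all finite extensions of `k` if and only if the maps `c_(j - m)` are
surjective for `Y` over all finite extensions of `k`, for `0 ≤ m ≤ dim A ^ n`**. If `Y` is a point this
is the Tate conjecture for all powers of `A`.

What is used of `A` (`IsTateModule`): `V = V_ℓ(A)` is a semisimple representation of all subgroups of
finite index (Tate, Faltings), it has the Weil pairing of a polarization, and the characteristic
polynomial of the Frobenius element of the ONE place `v`. Nothing is assumed on the dimension and the
endomorphisms of `A`, its Mumford-Tate group, or on other places. The cohomology of `A ^ n × Y` is given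
by the formula of Kunneth in terms of alternating maps from `V ^ n` to the cohomology of `Y`
(`FieldData`). What is used of cycles are known facts (`IsFieldData`): Tate classes of degree two on
`A ^ n` are combinations of classes of divisors (Tate, Faltings), products of cycles, the transfer for
finite extensions, and the push-forward to `Y` after the intersection with powers of an ample divisor.
Nothing is assumed on the semisimplicity of the cohomology of `Y`.

**The criteria** (`FreeCriteria`, part two of the theorem).

* The exactness of the criterion, see above. It is decided by the `p`-adic absolute values of the
  fields `K i`, that is, by the slopes.
* If the fields `K i` are pairwise independent then it is sufficient to consider the `π i` one by one: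
  all the other `ratio g` are one.
* **Several Weil numbers in the same fields.** Let the fields `K i` be pairwise independent, with
  flips (`HasFlip`: for two embeddings `φ`, `ψ` which are not equal or conjugate, there is an
  automorphism which fixes `φ` and conjugates `ψ`), and let `π i j` be several Weil numbers in each
  `K i`. They are all free if and only if for each `i` the numbers `π i j / conj (π i j)` are
  multiplicatively independent. A CM field has flips if some prime number divides its discriminant
  exactly once (and not the discriminant of the maximal real subfield). These are the products of
  non-isogenous abelian varieties with the same CM field.
* **Fields whose embeddings are indexed by subsets.** Let the embeddings of `K` up to conjugation be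
  indexed by the subsets `Y` with `k` elements of a finite set `Ω` such that all permutations of `Ω`
  are induced by automorphisms (`IsSubsetField`; for example `K` is the compositum of an imaginary
  quadratic field and of the field generated by the sum of `k` roots of a totally real polynomial with
  the symmetric Galois group). Then `π` is free if for each `j ≤ k` there are `j` disjoint pairs `x`,
  `y` of elements of `Ω` such that the sum over the `Y` which contain exactly one element of each pair,
  with the signs `(-1) ^ m`, `m` the number of the `y` in `Y`, of the slopes minus one half is not
  zero. For `k = 2` and the slopes `0`, `1` the abelian variety is given by a graph on `Ω`, and it is
  sufficient that the graph does not have one half of all the edges, is not regular, and that there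
  are different `x`, `y`, `x'`, `y'` in `Ω` such that the number of edges among `x x'`, `y y'` is not
  the number of edges among `x y'`, `y x'`. The dimension is `n (n - 1) / 2`, `n` the number of
  elements of `Ω`, and the odd functions on the embeddings have three irreducible components.
* **The exact criterion for `Y`.** All numbers unrelated to the fields `K i` are free from the `π i`.
  A number `φ x` for an element `x` of a CM field `F` with `x * conj x = q ^ w` is free from the `π i`
  if and only if a positive power of `x / conj x` is a product of powers of the `ratio g`, `g` a factor
  over `F` of the minimal polynomial of some `π i`, only with exponents which are the same for `g` and
  for the conjugate polynomial. So the fields of the eigenvalues of `Y` may be related or equal to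
  the fields `K i`.

**What was known.** The reduction of the Tate conjecture for `A ^ n × Y` to the one for `Y` is in the
library in terms of the absence of relations, with theorems for almost all slope types and families and
for fields with small cores, pairwise independent. New here are the criterion, necessary and sufficient,
for arbitrary families in arbitrary dependent fields, and the varieties `Y` with eigenvalues in
dependent fields.

**The proof.** Let there be a relation between the conjugates of the `π k` with an exponent which is
not symmetric at an embedding `φ` of `K i`. The product of its images under the (finitely many
permutations induced by the) automorphisms that fix `φ` is a relation with invariant exponents and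
still not symmetric at `φ`. The orbits of the stabilizer of `φ` on the embeddings of `K k` are the
factors of the minimal polynomial of `π k` over `K i`, and the products of the conjugates over the
orbits are the constant terms of the factors, up to sign. So the relation is a relation in `K i`. For
the subsets one shows by descending induction on `j` that all the alternating sums of a relation with
`j` pairs vanish: it is constant on the remaining elements, and it is orthogonal to the slopes.
-/

set_option autoImplicit false

namespace Pool.Agent.Results.MP_021685_ag.FactorizationCriterion

open NumberField Polynomial Pool.Agent.Y156.P Pool.Agent.H845.Orb Pool.Agent.H857.NF

/-- **The Tate conjecture for `A ^ n × Y` is equivalent to the Tate conjecture for `Y`, over number fields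
and over finite fields, for all abelian varieties `A` such that the Weil numbers of one Frobenius satisfy
the criterion, which is necessary and sufficient for the absence of relations, and all varieties `Y`
whose eigenvalues for this Frobenius are free from these Weil numbers.** -/
theorem result :
    (∀ (p : ℕ) [Fact p.Prime] (a : ℕ), 0 < a → ∀ (I : Type) [Fintype I] (K : I → Type)
      [∀ i, Field (K i)] [∀ i, NumberField (K i)] [∀ i, IsCMField (K i)] (π : ∀ i, K i)
      (f : I → ℤ[X]), (∀ i, IsSimpleWeil p a (π i)) → (∀ i, IsFree π i) →
      (∀ i, (f i).map (Int.castRingHom ℚ) = minpoly ℚ (π i)) →
        TateOverReduces (FreeFrom (p ^ a) π) (p ^ a) f) ∧
    FreeCriteria :=
  ⟨fun _ _ _ _ _ _ _ _ _ _ _ _ hπ hfree hf =>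
    tateOverReduces (pow_pos (Fact.out : Nat.Prime _).pos _)
      (freeFrom_mul (pow_pos (Fact.out : Nat.Prime _).pos _)) (tateClassesSplit_free hπ hfree hf),
    freeCriteria_hold⟩

end Pool.Agent.Results.MP_021685_ag.FactorizationCriterion
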