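import Mathlib
import Pool.Agent.H926.T.Main7
import Pool.Agent.H926.C.Mark
import Pool.Agent.H841.HC5.Tate

/-!
# Tate classes on the abelian varieties over number fields built from factors of one of dimension at
# most seven

Let `X` be an abelian variety of any dimension over a number field `k ⊂ ℂ`. We assume that there is a
complex abelian variety `A` of dimension at most seven such that each simple factor of `X` over `ℂ` (that
is, each simple abelian variety with a homomorphism to `X` with finite kernel) is a factor of `A`. For
instance `X` can be any form of any power of `A`, or of any product of powers of the factors of `A`; so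
all powers `Y ^ n` of an abelian variety `Y` over `k` of dimension at most seven are among these `X`.
There is one condition: no simple factor of `A` of dimension four or six has `ℤ` as its endomorphism
ring. All other endomorphism algebras are allowed (Albert types I, II, III, IV, with complex
multiplication or not), and no condition is imposed on the Mumford–Tate group, on the monodromy or on the
reductions of `X`.

**Theorem.** (1) For all prime numbers `ℓ` and all `j` all Tate classes in `H^{2 j}(X, ℚ_ℓ)(j)`, over all
finite extensions of `k`, are `ℚ_ℓ`-linear combinations of classes in the ring generated by the classes of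
divisors and by the pull-backs (along homomorphisms) of Weil classes on abelian varieties, for all CM
fields.
(2) The Weil classes for imaginary quadratic fields on abelian fourfolds and on abelian sixfolds of
discriminant `-1` suffice if
(a) there is an abelian variety `A₀` of dimension at most five such that each simple factor of `A` has
real multiplication (its endomorphism algebra has a totally real maximal commutative subfield) or is a
factor of `A₀` (with any endomorphism algebra), for instance if `A` has dimension at most five, or
(b) `X` has dimension at most seven, the endomorphism algebras of the simple factors of `A` have totally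
real or quadratic maximal commutative subfields, and no simple factor of `X` is a non-split sixfold (a
simple sixfold without real multiplication, with a non-zero Weil class for some imaginary quadratic
field, but not of split Weil type for any such field).

So the Tate conjecture for all these `X` (the surjectivity of `c_j` for all `j`, for `X` over all finite
extensions of `k`, by averaging over the Galois group) follows if Weil classes are algebraic; and it is
true in the cases (a) and (b) by the theorems of Markman (2025) on these Weil classes.

The Tate module is described as in the library (`IsTateModule`: Weil pairing, Faltings, Hodge–Tate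
decomposition, Serre, Pink, which are known properties of the Tate module of `X`); Tate classes are the
alternating forms in `2 j` variables on the Tate module which are multiplied by the `j`-th power of the
cyclotomic character by a subgroup of finite index of the Galois group. The ring is `WeilRing` of the
library: the smallest system of classes which contains the classes of degree zero, the Hodge classes of
degree two and the pull-backs of Weil classes of all abelian varieties for all CM fields, and which is
closed under sums, multiples and cup products.

Proof. Tate tensors are combinations of Hodge tensors (`MP_b8862a_ag.FactorsOfDimensionSeven`), so Tate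
classes are combinations of Hodge classes. Since there is no factor of Mumford's type, the commutators of
the Lefschetz Lie algebra of `X` are in the Hodge Lie algebra, and by the criterion
(`MP_9d7ff6_ag.LefschetzCommutators`) the Hodge classes are in the ring. For (2) see the theorem of
helper841 (`MP_e12fcd_ag.AllPowersDimensionFive`, `MP_c184fc_ag.RealOrSmallFactors`) for (a), and
`MP_e12fcd_ag.ProductsDimensionSeven` for (b).
-/

namespace Pool.Agent.Results.MP_021685_ag.FactorsOfDimensionSeven

open Module TensorProduct
open Pool.Agent.Y90 (AV)
open Pool.Agent.Y90.St (IsHom IsPolarization)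
open Pool.Agent.Y4.P (WeilRing)
open Pool.Agent.R915 (IsFactor)
open Pool.Agent.Y224.TS.St (IsTateModule)
open Pool.Agent.H926.A.Quad (RealOrQuadratic)
open Pool.Agent.H926.C (HasRealMultiplication IsNonSplitSixfold)

/-- All factors of `A` of dimensions four and six have endomorphisms besides the scalars. -/
def NoTrivialEndomorphisms (A : AV) : Prop :=
  ∀ Y, IsFactor Y A → finrank ℂ Y.T = 4 ∨ finrank ℂ Y.T = 6 →
    ∃ f, IsHom Y.per Y.per f ∧ ∀ c : ℚ, f ≠ c • 1

/-- `φ` is a Tate class in `H^{2j}(X, ℚ_ℓ)(j)`, for some finite extension of the field. -/
def IsTateClass {ℓ : ℕ} [Fact ℓ.Prime] {H Γ : Type} [AddCommGroup H] [Module ℚ H] [Group Γ]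
    (ρ : Representation ℚ_[ℓ] Γ (ℚ_[ℓ] ⊗[ℚ] H)) (χ : Γ →* ℚ_[ℓ]) (j : ℕ)
    (φ : (ℚ_[ℓ] ⊗[ℚ] H) [⋀^Fin (2 * j)]→ₗ[ℚ_[ℓ]] ℚ_[ℓ]) : Prop :=
  ∃ Δ : Subgroup Γ, Δ.FiniteIndex ∧ ∀ g ∈ Δ, ∀ v : Fin (2 * j) → ℚ_[ℓ] ⊗[ℚ] H,
    φ (fun k => ρ g (v k)) = χ g ^ j * φ v

/-- The cases in which the Weil classes for imaginary quadratic fields on abelian fourfolds and on abelian
sixfolds of discriminant `-1` (which are algebraic) suffice: (a) each simple factor of `A` has real
multiplication or is a factor of an abelian variety `A₀` of dimension at most five; (b) the
endomorphism algebras of the simple factors of `A` have totally real or quadratic maximal commutative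
subfields, the dimension of `X` is at most seven and no simple factor of `X` is a non-split sixfold. -/
def MarkmanCase (A X : AV) : Prop :=
  (∃ A₀ : AV, finrank ℂ A₀.T ≤ 5 ∧
    ∀ Y, IsFactor Y A → IsFactor Y A₀ ∨ HasRealMultiplication Y.per) ∨
  (RealOrQuadratic A.per ∧ finrank ℂ X.T ≤ 7 ∧ ∀ Y, IsFactor Y X → ¬IsNonSplitSixfold Y.per)

/-- **All Tate classes are generated by divisors and Weil classes**, for the abelian varieties `X` over
number fields (given as complex abelian varieties with a polarization `E` and the representation `ρ` of
the Galois group `Γ` on the Tate module `ℚ_ℓ ⊗ H_1(X, ℚ)`, with the known properties of the Tate module;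
`χ` is the cyclotomic character, and `ℂ` is identified with an algebraic closure of `ℚ_ℓ`), all of whose
simple factors over `ℂ` are factors of a complex abelian variety `A` of dimension at most seven without
simple factors of dimension four or six with only the trivial endomorphisms. In the cases of
`MarkmanCase` the Weil classes for imaginary quadratic fields on fourfolds and on sixfolds of
discriminant `-1` suffice. -/
theorem result (A X : AV) (h7 : finrank ℂ A.T ≤ 7) (hA : NoTrivialEndomorphisms A)
    (hX : ∀ Y, IsFactor Y X → IsFactor Y A) (E : X.H → X.H → ℚ) (hE : IsPolarization X.per E)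
    (ℓ : ℕ) [Fact ℓ.Prime] [Algebra ℚ_[ℓ] ℂ] [Algebra.IsAlgebraic ℚ_[ℓ] ℂ]
    {Γ : Type} [Group Γ] (ρ : Representation ℚ_[ℓ] Γ (ℚ_[ℓ] ⊗[ℚ] X.H)) (χ : Γ →* ℚ_[ℓ])
    (hρ : IsTateModule X.per E ρ χ) (j : ℕ)
    (φ : (ℚ_[ℓ] ⊗[ℚ] X.H) [⋀^Fin (2 * j)]→ₗ[ℚ_[ℓ]] ℚ_[ℓ]) (hφ : IsTateClass ρ χ j φ) :
    ∃ (n : ℕ) (c : Fin n → ℚ_[ℓ]) (f : Fin n → (X.H [⋀^Fin (2 * j)]→ₗ[ℚ] ℚ)),
      (∀ i, WeilRing X.per (Fin (2 * j)) (f i)) ∧
      (MarkmanCase A X → ∀ i, Pool.Agent.Y90.St.WeilRing X.per (Fin (2 * j)) (f i)) ∧
      ∀ v : Fin (2 * j) → X.H, φ (fun k => (1 : ℚ_[ℓ]) ⊗ₜ[ℚ] v k) =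
        ∑ i, c i * ((f i v : ℚ) : ℚ_[ℓ]) := by
  obtain ⟨n, c, f, h1, h2⟩ := Pool.Agent.H926.T.th7 A X h7 hA hX hE hρ
    (Nat.card_fin (2 * j)) φ hφ
  refine ⟨n, c, f, fun i => Pool.Agent.H926.T.weil_seven Pool.Agent.H926.T.s_rda A X h7 hA hX
    (f i) (h1 i), ?_, h2⟩
  rintro (⟨A₀, h5, hs⟩ | ⟨hR, hX7, hs⟩) i
  · exact Pool.Agent.H841.HC5.weil_seven5 A A₀ X h7 h5 hs hA hX (f i) (h1 i)
  · refine Pool.Agent.H926.C.markman_of X (Or.inr ⟨hX7, hs⟩)
      (Pool.Agent.H926.C.Ring.hodge_small A X h7 hR hX (Or.inl hX7) (h1 i))

end Pool.Agent.Results.MP_021685_ag.FactorsOfDimensionSeven
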