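import Pool.Agent.H854.K.Strict

/-!
# The Tate conjecture over number fields and finite fields, and one cohomology group for each member
of one sequence of smooth affine cubic hypersurfaces over the integers

For `m ≥ 1` let `G_m` be the following polynomial with integral coefficients (`univ ℤ m`). A relation
`r` of size `m` is one of the equations `x_i x_j = x_l`, `x_i + x_j = x_l`, `x_i = 1` with
`i, j, l < m`. There are variables `x_i` and `z_ij` for `i, j < m`, and `c_r` for all relations `r`.
The equations (`eqn`) are

  `z_ij - x_i x_j`,  `c_r ^ 2 - c_r`,  `c_r ρ_r`,

where `ρ_r` is the linear polynomial `z_ij - x_l`, `x_i + x_j - x_l` or `x_i - 1` of the relation.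
`G_m` is the sum of the equations multiplied by further variables `t_e`, one for each of the
`num m = 4 m ^ 3 + m ^ 2 + 2 m` equations; it is a cubic polynomial. Let `E_m` be the affine cubic
hypersurface `y ^ 2 - y = G_m`, which is smooth over all fields, of dimension
`6 m ^ 3 + 2 m ^ 2 + 4 m`.

Let `k` be `ℚ` or `F_p`, let `ℓ ≠ p` be a prime number and `F` the field of the `ℓ`-adic numbers, `G` the
Galois group of `k`. For separated schemes `X` of finite type over `k` let `C.M X n` be the group of
cycles of dimension `n` modulo rational equivalence and `T.V X n` the Borel–Moore homology group
`H_{2 n}(X̄, ℚ_ℓ(-n))` with the action of `G` and the cycle class map; for smooth `X` of dimension `d`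
it is `H^{2 j}(X̄, ℚ_ℓ(j))` with `j = d - n`. `T.Tate X n` says that the classes fixed by `G` are linear
combinations of classes of cycles.

The properties of the theory that are used in general (`IsChow`, `Realization.IsValid`) are the long
exact sequences of a closed subscheme and its open complement, the flat pull-back with its
compatibilities, the invariance under affine bundles. For `k = ℚ` we use also (`IsPolarized`) that every
fixed class in the image of the push-forward of a closed immersion is the image of a fixed class, that
the fixed classes on a variety come from a smooth proper variety, that the fixed classes on an open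
subscheme of a smooth proper variety are restrictions of fixed classes, and that every smooth variety
is an open subscheme of a smooth proper variety. This is known: the fixed classes are of weight zero,
the parts of weight zero of the groups `H_{2 n}(X̄, ℚ_ℓ(-n))` are realizations of pure motives for
motivated cycles, and the category of these motives is semisimple (Nagata, Hironaka, Deligne, Jannsen,
André).

**Theorem.** (1) Let `k = ℚ` or `k = F_p`. The following are equivalent.

* For infinitely many `m`, the Tate conjecture for the cycles of the one dimension
  `index m = ⌊m / 2⌋ + 4 m ^ 3 + m ^ 2 + 2 m` on `E_m`, that is, for the one group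
  `H^{2 j}(Ē_m, ℚ_ℓ(j))`, `j = 2 m ^ 3 + m ^ 2 + 2 m - ⌊m / 2⌋`;
* the Tate conjecture in all dimensions for all smooth varieties over `k`;
* the Tate conjecture in all dimensions for all, possibly singular or open, varieties over all finite
  extensions of `k`.

(2) Let `k = ℚ`. The three statements are equivalent to

* for infinitely many `m`, the Tate conjecture for the cycles of the one dimension `index m`, that is,
  for the one group `H^{2 j}(P̄, ℚ_ℓ(j))`, `j = 2 m ^ 3 + m ^ 2 + 2 m - ⌊m / 2⌋`, on some smooth proper
  variety `P` which contains `E_m` as an open subscheme;
* the Tate conjecture for all smooth projective varieties over all number fields (Q1 for number fields).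

(3) Let `k = ℚ` and let `n` be an integer. The following are equivalent.

* For infinitely many `m`, the Tate conjecture for the cycles of dimension `n + num m` on `E_m`;
* the same for all large `m`;
* the Tate conjecture for the cycles of dimension `n` on all affine schemes of finite type over `ℚ`;
* the Tate conjecture for the cycles of dimension `n` on all smooth projective varieties over `ℚ`;
* the Tate conjecture for the cycles of dimension `n` on all, possibly singular or open, varieties over
  all number fields.

For `n = 1` the statements (3) are equivalent to the Tate conjecture for divisors over number fields,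
by the hard Lefschetz theorem (this is not part of the Lean statement).

In (1) the varieties are the schemes of finite type with an affine bundle whose total space is affine
(by Jouanolou these include all quasi-projective schemes), in (2) and (3) they are all separated schemes
of finite type, and instead of smooth projective ones we take the smooth proper ones.

Idea of the proof. `G_m` is linear in the variables `t_e`. Let `W_m` be the zero set of the equations
in the affine space `S` with the coordinates `x_i, z_ij, c_r`. The map `E_m → S` is an affine bundle
over the complement of `W_m`, and the disjoint union of two affine bundles over `W_m`, of rank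
`num m`. So the homology and the cycle groups of one of these two bundles inject into those of `E_m`,
and for the cycle groups this is an isomorphism, except in the dimension of `S`. Every affine scheme
`Z` of finite type over `k` is defined by relations of the three kinds in `a` variables, for some `a`;
then `Z × A^b` is a clopen subscheme of `W_m` if `m ≥ a + b`. The classes of dimension `d` on `Z` are the
classes of dimension `d + b` on `Z × A^b`. If `m` is large, we can take `b = ⌊m / 2⌋ - d`. For (3) we
use Noetherian induction: a fixed class on `X` is algebraic on an affine open subscheme, so it is the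
sum of an algebraic class and of the image of a fixed class on the complement.
-/

set_option autoImplicit false

open CategoryTheory AlgebraicGeometry Pool.Agent.H854.K
open Pool.Agent.H854.SQ (IsPrimeField univ totalDegree_univ map_univ Eqn)
open Pool.Agent.H854.AS (pol_two)

namespace Pool.Agent.Results.MP_021685_ag.OneGroupForEachCubic

/-- The number of the equations of the universal system. -/
def num (m : ℕ) : ℕ := 4 * m ^ 3 + m ^ 2 + 2 * m

/-- Smooth varieties which have an affine bundle with affine total space. -/
def IsSmoothAdm {k : Type} [Field k] (X : Sch k) : Prop := IsAdm X ∧ Smooth (str X)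

section

variable {k : Type} [Field k] {C : Grp k ℤ} {F : Type} [Field F] {G : Type}
  (T : Realization C F G)

/-- For infinitely many `m` the Tate conjecture for the cycles of the one dimension `index m`
on `E_m`. -/
def OneGroup : Prop := ∃ᶠ m in Filter.atTop, T.Tate (seq k 2 m) (index m)

/-- For infinitely many `m` there is a smooth proper variety `P` which contains `E_m` as an open
subscheme, such that the Tate conjecture is true for the cycles of the one dimension `index m`
on `P`. -/
def OneCompactification : Prop :=
  ∃ᶠ m in Filter.atTop, ∃ (P : Sch k) (j : Mor (seq k 2 m) P), Op j ∧ IsSmoothProperVar P ∧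
    T.Tate P (index m)

/-- The five statements in the dimension `n`. -/
def fixedDimension (n : ℤ) : List Prop :=
  [∃ᶠ m in Filter.atTop, T.Tate (seq k 2 m) (n + num m),
    ∀ᶠ m in Filter.atTop, T.Tate (seq k 2 m) (n + num m),
    T.TateIn n IsAffineVar,
    T.TateIn n IsSmoothProperVar,
    T.TateIn n IsVar ∧ T.TateInExtensions n IsVar]

end

/-- **The Tate conjecture over number fields and finite fields is a statement on one cohomology group
for each member of one sequence of smooth affine cubic hypersurfaces over the integers.** -/
theorem result {k : Type} [Field k] (hk : IsPrimeField k) {C : Grp k ℤ} {F : Type} [Field F]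
    {G : Type} (T : Realization C F G) (hC : IsChow C) (hT : T.IsValid) :
    List.TFAE [OneGroup T, ∀ n, T.TateIn n IsSmoothAdm,
      ∀ n, T.TateIn n IsAdm ∧ T.TateInExtensions n IsAdm] ∧
    (T.IsPolarized →
      List.TFAE [OneGroup T, OneCompactification T, ∀ n, T.TateIn n IsSmoothProperVar ∧
          T.TateInExtensions n IsSmoothProperVar,
        ∀ n, T.TateIn n IsVar ∧ T.TateInExtensions n IsVar] ∧
      ∀ n, (fixedDimension T n).TFAE) ∧
    ∀ m : ℕ, 0 < m → Smooth (str (seq k 2 m)) ∧
      (univ ℤ m).totalDegree ≤ 3 ∧ MvPolynomial.map (Int.castRingHom k) (univ ℤ m) = univ k m := by
  have one : OneGroup T → ∀ n, T.TateIn n IsAdm := fun h n X hX =>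
    reduce_one (transfers_tate hC hT) hk pol_two h X hX n
  have ext : ∀ n, T.TateIn n IsVar → T.TateInExtensions n IsVar := by
    intro n h K _ _ _ C' G' T' hr X hX
    exact restricts_algebraic (hr X n hX) (h _ (Pool.Agent.H854.SQ.isVariety_down hX))
  refine ⟨?_, fun hP => ⟨?_, fun n => ?_⟩,
    fun n hn => ⟨smooth_seq_two hn, totalDegree_univ ℤ n, map_univ _ n⟩⟩
  · tfae_have 1 → 3 := by
      intro h n
      refine ⟨one h n, fun K _ _ _ C' G' T' hr X hX => ?_⟩
      exact restricts_algebraic (hr X n hX.1) (one h n _ (isAdm_down hX))
    tfae_have 3 → 2 := fun h n X hX => (h n).1 X hX.1
    tfae_have 2 → 1 := by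
      intro h
      refine Filter.Eventually.frequently ?_
      filter_upwards [Filter.eventually_gt_atTop 0] with m hm
      exact h _ _ ⟨isAdm_seq pol_two m, smooth_seq_two hm⟩
    tfae_finish
  · tfae_have 1 → 4 := by
      intro h n
      have h1 : T.TateIn n IsVar := tate_of_affine hC hT hP.strict n fun X hX =>
        one h n X (isAdm_of_affine hX)
      exact ⟨h1, ext n h1⟩
    tfae_have 4 → 3 := fun h n => ⟨fun X hX => (h n).1 X hX.1,
      fun K _ _ _ C' G' T' hr X hX => (h n).2 K C' G' T' hr X hX.1⟩
    tfae_have 3 → 2 := by
      intro h
      refine Filter.Eventually.frequently ?_
      filter_upwards [Filter.eventually_gt_atTop 0] with m hm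
      obtain ⟨P, j, hj, hX⟩ := hP.compactifications (seq k 2 m) (isAdm_seq pol_two m).1
        (smooth_seq_two hm)
      exact ⟨P, j, hj, hX, (h _).1 P hX⟩
    tfae_have 2 → 1 := fun h => h.mono fun m ⟨P, j, hj, hX, ht⟩ =>
      tate_of_open hT hP.openStrict j hj (isAdm_seq pol_two m).1 hX _ ht
    tfae_finish
  · have hnum : ∀ m, (num m : ℤ) = Fintype.card (Eqn m) := fun m => by rw [card_eqn]; rfl
    simp only [fixedDimension, hnum]
    tfae_have 1 → 3 := tate_affine hC hT hk n
    tfae_have 3 → 2 := tate_seq hC hT hP.point n
    tfae_have 2 → 1 := fun h => h.frequently
    tfae_have 3 → 5 := by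
      intro h
      have h1 : T.TateIn n IsVar := tate_of_affine hC hT hP.strict n h
      exact ⟨h1, ext n h1⟩
    tfae_have 5 → 4 := fun h X hX => h.1 X hX.1
    tfae_have 4 → 3 := by
      intro h X hX
      obtain ⟨X', hX', hr⟩ := hP.proper X n hX.1
      exact restricts_algebraic hr (h X' hX')
    tfae_finish

end Pool.Agent.Results.MP_021685_ag.OneGroupForEachCubic
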